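import Pool.Agent.Helper985.PS.M_main_bound
import Pool.Agent.Helper985.PS.M_ground_le
import Pool.Agent.Helper985.PS.M_braket_hamiltonian
import Pool.Agent.Helper985.PS.Pol

set_option autoImplicit false

open MeasureTheory
open scoped Topology

namespace Pool.Agent.Results.MP_8cfbae_mp.UpperBound

open Pool.Agent.Helper985.PS

/-- For every `α > 0` the self-energy of the Pauli electron is at most `C Λ^{37/25}` for all
`Λ ≥ 2`, all `L ≥ 8 Λ^{-24/25}` and all polarisation vectors; hence in no box there is `c > 0` with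
`E₀ ≥ c Λ^{3/2}` for all large `Λ`. -/
theorem result :
    (∀ α : ℝ, 0 < α → ∃ C : ℝ, 0 < C ∧ ∀ L Λ : ℝ, 2 ≤ Λ → 8 * Λ ^ (-(24 / 25) : ℝ) ≤ L →
      ∀ pol : Mode L Λ → E3, IsPolarisation pol →
        (energies α L Λ pol).Nonempty ∧ (∀ e ∈ energies α L Λ pol, 0 ≤ e) ∧
          groundEnergy α L Λ pol ≤ C * Λ ^ (37 / 25 : ℝ)) ∧
    (∀ α : ℝ, 0 < α → ∀ L : ℝ, 0 < L → ¬ ∃ c Λ₀ : ℝ, 0 < c ∧ ∀ Λ : ℝ, Λ₀ ≤ Λ →
      ∀ pol : Mode L Λ → E3, IsPolarisation pol →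
        c * Λ ^ (3 / 2 : ℝ) ≤ groundEnergy α L Λ pol) := by
  have h1 : ∀ α : ℝ, 0 < α → ∃ C : ℝ, 0 < C ∧ ∀ L Λ : ℝ, 2 ≤ Λ →
      8 * Λ ^ (-(24 / 25) : ℝ) ≤ L →
      ∀ pol : Mode L Λ → E3, IsPolarisation pol →
        (energies α L Λ pol).Nonempty ∧ (∀ e ∈ energies α L Λ pol, 0 ≤ e) ∧
          groundEnergy α L Λ pol ≤ C * Λ ^ (37 / 25 : ℝ) := by
    intro α hα
    obtain ⟨C, hC, h⟩ := main_bound α hα
    refine ⟨C, hC, ?_⟩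
    intro L Λ hΛ hL pol hp
    have hL0 : 0 < L := lt_of_lt_of_le (by positivity) hL
    obtain ⟨Ψ, hs, hc, hpos, hform⟩ := h L Λ hΛ hL pol hp
    obtain ⟨hne, hle⟩ := ground_le hα.le hL0 pol hp Ψ hs hc hpos _ hform
    exact ⟨hne, fun e he => energies_nonneg hL0 pol e he, hle⟩
  refine ⟨h1, ?_⟩
  intro α hα L hL ⟨c, Λ₀, hc, h⟩
  obtain ⟨C, hC, hb⟩ := h1 α hα
  have e1 : ∀ᶠ Λ : ℝ in Filter.atTop, 2 ≤ Λ := Filter.eventually_ge_atTop 2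
  have e2 : ∀ᶠ Λ : ℝ in Filter.atTop, Λ₀ ≤ Λ := Filter.eventually_ge_atTop Λ₀
  have e3 : ∀ᶠ Λ : ℝ in Filter.atTop, 8 / L ≤ Λ ^ (24 / 25 : ℝ) :=
    (tendsto_rpow_atTop (by norm_num)).eventually_ge_atTop _
  have e4 : ∀ᶠ Λ : ℝ in Filter.atTop, C / c < Λ ^ (1 / 50 : ℝ) :=
    (tendsto_rpow_atTop (by norm_num)).eventually_gt_atTop _
  obtain ⟨Λ, g1, g2, g3, g4⟩ := (e1.and (e2.and (e3.and e4))).exists
  have hΛ : 0 < Λ := by linarith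
  obtain ⟨pol, hp⟩ := exists_polarisation L Λ
  have hL8 : 8 * Λ ^ (-(24 / 25) : ℝ) ≤ L := by
    rw [Real.rpow_neg hΛ.le, ← div_eq_mul_inv, div_le_iff₀ (by positivity)]
    rw [div_le_iff₀ hL] at g3
    linarith
  have k1 := (hb L Λ g1 hL8 pol hp).2.2
  have k2 := h Λ g2 pol hp
  have k3 : Λ ^ (3 / 2 : ℝ) = Λ ^ (37 / 25 : ℝ) * Λ ^ (1 / 50 : ℝ) := by
    rw [← Real.rpow_add hΛ]; norm_num
  rw [k3] at k2
  rw [div_lt_iff₀ hc] at g4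
  have k4 : 0 < Λ ^ (37 / 25 : ℝ) := by positivity
  nlinarith

end Pool.Agent.Results.MP_8cfbae_mp.UpperBound
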